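import Pool.Agent.Y947.RL.Stm3
import Pool.Agent.Y26.RL.FX

/-!
# Job RL TWA: removing a twist at a prime whose square divides `m` (helper162)
-/

set_option autoImplicit false

open Finset Polynomial Module Pool.Agent.H388SL Pool.Agent.Y947.DL Pool.Agent.Y947.RL

namespace Pool.Agent.Y162.RL

theorem twa : S_TR → T_TWA := by
  intro hTR K _ _ m ζ α hC p hp hp2 hfix
  have hpm : p ∣ m := dvd_trans (dvd_pow_self p (by norm_num)) hp2
  obtain ⟨e, rfl⟩ := hpm
  have hm := hC.hm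
  have he : 0 < e := Nat.pos_of_ne_zero (by rintro rfl; simp at hm)
  have hpe : p ∣ e := by
    rw [pow_two] at hp2
    exact Nat.dvd_of_mul_dvd_mul_left hp.pos hp2
  have hpe' : p ≤ e := Nat.le_of_dvd he hpe
  have h2p := hp.two_le
  have hce : ∀ u, u ≡ 1 [MOD e] → u.Coprime e := by
    intro u hu
    have h1 : Nat.gcd u e = Nat.gcd 1 e := hu.gcd_eq
    rw [Nat.gcd_one_left] at h1
    exact h1
  have hu0 : (1 + 1 * e) ∈ Gset (p * e) p := by
    unfold Gset
    rw [Nat.mul_div_cancel_left e hp.pos]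
    simp only [mem_filter, mem_range]
    have h1 : 1 + 1 * e ≡ 1 [MOD e] := by
      unfold Nat.ModEq
      simp
    refine ⟨by nlinarith, Nat.Coprime.mul_right (Nat.Coprime.coprime_dvd_right hpe (hce _ h1))
      (hce _ h1), h1⟩
  obtain ⟨σ, _⟩ := (hTR K (p * e) ζ hm hC.hζ).2.1 _ (Complex.isPrimitiveRoot_exp (p * e) hm.ne')
  obtain ⟨τ, hτ1, hτ2⟩ := hfix _ hu0 σ
  rw [map_pow, map_pow] at hτ2
  have hσζ : IsPrimitiveRoot (σ ζ) (p * e) := hC.hζ.map_of_injective σ.toRingHom.injective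
  have hσe : IsPrimitiveRoot ((σ ζ) ^ e) p := hσζ.pow hm (mul_comm p e)
  have hσα : σ α ≠ 0 := (map_ne_zero_iff _ σ.toRingHom.injective).2 hC.h0
  have : NeZero p := ⟨hp.ne_zero⟩
  obtain ⟨j, hj, hj2⟩ := hσe.eq_pow_of_pow_eq_one (ξ := τ α / σ α) (by
    rw [div_pow, hτ2, div_self (pow_ne_zero _ hσα)])
  have hτα : τ α = ((σ ζ) ^ e) ^ j * σ α := by
    rw [hj2, div_mul_cancel₀ _ hσα]
  refine ⟨p - j, ?_⟩
  have hF : Fix ζ (ζ ^ (p - j) * α) (1 + 1 * e) := by
    refine Pool.Agent.Y26.RL.fix_of_eq σ τ hτ1 ?_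
    rw [map_mul, map_mul, map_pow, map_pow, hτ1, hτα, ← mul_assoc]
    congr 1
    rw [← pow_mul, ← pow_mul, ← pow_add]
    have h1 : (1 + 1 * e) * (p - j) + e * j = (p - j) + p * e := by
      obtain ⟨k, rfl⟩ : ∃ k, p = k + j := ⟨p - j, by omega⟩
      rw [Nat.add_sub_cancel]
      ring
    rw [h1, pow_add, hσζ.pow_eq_one, mul_one]
  intro u hu
  unfold Gset at hu
  rw [Nat.mul_div_cancel_left e hp.pos] at hu
  simp only [mem_filter, mem_range] at hu
  obtain ⟨h1, _, h2⟩ := hu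
  have h3 : u % e = 1 := by
    have h4 : u % e = 1 % e := h2
    rw [h4]
    exact Nat.mod_eq_of_lt (by omega)
  have h5 : u = 1 + u / e * 1 * e := by
    have := Nat.mod_add_div u e
    rw [h3] at this
    rw [mul_one, mul_comm (u / e) e]
    exact this.symm
  have h6 := Pool.Agent.Y26.RL.pow_mod (j := 1) hpe (u / e)
  rw [← h5] at h6
  exact Pool.Agent.Y26.RL.fix_congr hC.hζ.pow_eq_one h6 (Pool.Agent.Y26.RL.fix_pow hF _)

end Pool.Agent.Y162.RL
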